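import Pool.Agent.Q215.MB.Stm

/-!
The step of the induction for the existence of presentations.
-/

set_option autoImplicit false

open Set Topology Filter

namespace Pool.Agent.Q203.MB

open Pool.Agent.Q215.WR (Two Lim)
open Pool.Agent.Q215.MB

lemma two_mono {M M' : Set ℝ} (h : M ⊆ M') {x : ℝ} (hx : Two M x) : Two M' x := by
  intro ε hε
  obtain ⟨⟨z, hz, h1⟩, w, hw, h2⟩ := hx ε hε
  exact ⟨⟨z, h hz, h1⟩, w, h hw, h2⟩

lemma lim_mono {M M' : Set ℝ} (h : M ⊆ M') {x : ℝ} (hx : Lim M x) : Lim M' x := by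
  intro ε hε
  obtain ⟨z, hz, h1⟩ := hx ε hε
  exact ⟨z, h hz, h1⟩

lemma exists_of_closure {M : Set ℝ} {z u v : ℝ} (hz : z ∈ closure M) (h1 : u < z) (h2 : z < v) :
    ∃ w ∈ M, u < w ∧ w < v := by
  rw [mem_closure_iff] at hz
  obtain ⟨w, hw, hwM⟩ := hz (Ioo u v) isOpen_Ioo ⟨h1, h2⟩
  exact ⟨w, hwM, hw.1, hw.2⟩

lemma two_cl {X M : Set ℝ} (h : X ⊆ closure M) {x : ℝ} (hx : Two X x) : Two M x := by
  intro ε hε
  obtain ⟨⟨z, hz, h1, h2⟩, w, hw, h3, h4⟩ := hx ε hε
  exact ⟨exists_of_closure (h hz) h1 h2, exists_of_closure (h hw) h3 h4⟩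

lemma core_of_pc {l : ℝ → ℕ} {j i : ℕ} {P : Set ℝ} (h : Pc l j i P) : Core l i P := by
  cases j with
  | zero => exact h
  | succ j => exact h.1

theorem t_presS : S_presS := by
  intro hst j i hP
  obtain ⟨κ, iL, iW, bot, R, e, hbot, -, hH⟩ := hP
  have hbotlt : ∀ b : κ, b ≠ bot → bot < b := fun b hb => lt_of_le_of_ne (hbot b) (Ne.symm hb)
  classical
  refine ⟨ℕ ×ₗ κ, inferInstance, inferInstance, toLex (0, bot),
    fun a => ((ofLex a).2 = bot ∧ (ofLex a).1 = 0) ∨ ((ofLex a).2 ≠ bot ∧ R (ofLex a).2),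
    fun a => if (ofLex a).2 = bot then i + 1 else e (ofLex a).2, ?_, ?_, ?_⟩
  · intro a
    rw [Prod.Lex.le_iff]
    rcases Nat.eq_zero_or_pos (ofLex a).1 with h | h
    · right; exact ⟨h.symm, hbot _⟩
    · left; exact h
  · refine ⟨toLex (1, bot), fun h => ?_⟩
    have h' := congrArg (fun a => (ofLex a).1) h
    simp at h'
  intro l N' U V hFS hl hN' hA
  obtain ⟨H, hHc, hHU⟩ := hFS (i + 1)
  have hstep := hst l i (j + 1) N' U V hA
  set T : Set ℝ := V ∪ ({x | i + 1 ≤ l x} ∩ U) with hT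
  choose! g gM g1 g2 g3 g4 g5 g6 g7 g8 g9 g10 g11 g12 using hstep
  have hVT : V ⊆ T := subset_union_left
  have hHT : ∀ n, H n ∩ U ⊆ T := by
    intro n x hx
    refine Or.inr ⟨?_, hx.2⟩
    rw [← hHU]
    exact mem_iUnion.2 ⟨n, hx.1⟩
  let E : ℕ → {X : Set ℝ // IsClosed X ∧ V ⊆ X ∧ X ⊆ T} := fun n =>
    Nat.rec ⟨V ∪ (H 0 ∩ U), hA.closedV.union ((hHc 0).inter hA.closedU), subset_union_left,
        union_subset hVT (hHT 0)⟩
      (fun n X => ⟨g X.1 ∪ (H (n + 1) ∩ U),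
        (g1 X.1 X.2.1 X.2.2.1 X.2.2.2).union ((hHc (n + 1)).inter hA.closedU),
        X.2.2.1.trans ((g2 X.1 X.2.1 X.2.2.1 X.2.2.2).trans subset_union_left),
        union_subset (g3 X.1 X.2.1 X.2.2.1 X.2.2.2) (hHT (n + 1))⟩) n
  set F : ℕ → Set ℝ := fun n => g (E n).1 with hF
  set M : ℕ → Set ℝ := fun n => gM (E n).1 with hM
  have hE : ∀ n, IsClosed (E n).1 ∧ V ⊆ (E n).1 ∧ (E n).1 ⊆ T := fun n => (E n).2
  have hE0 : (E 0).1 = V ∪ (H 0 ∩ U) := rfl
  have hEs : ∀ n, (E (n + 1)).1 = F n ∪ (H (n + 1) ∩ U) := fun n => rfl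
  have hHE : ∀ n, H n ∩ U ⊆ (E n).1 := by
    intro n
    cases n with
    | zero => rw [hE0]; exact subset_union_right
    | succ n => rw [hEs]; exact subset_union_right
  have f1 : ∀ n, IsClosed (F n) := fun n => g1 _ (hE n).1 (hE n).2.1 (hE n).2.2
  have f2 : ∀ n, (E n).1 ⊆ F n := fun n => g2 _ (hE n).1 (hE n).2.1 (hE n).2.2
  have f3 : ∀ n, F n ⊆ T := fun n => g3 _ (hE n).1 (hE n).2.1 (hE n).2.2
  have f4 : ∀ n, (M n).Countable := fun n => g4 _ (hE n).1 (hE n).2.1 (hE n).2.2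
  have f5 : ∀ n, M n ⊆ F n \ (E n).1 := fun n => g5 _ (hE n).1 (hE n).2.1 (hE n).2.2
  have f6 : ∀ n, ∀ x ∈ M n, l x = i + 1 := fun n => g6 _ (hE n).1 (hE n).2.1 (hE n).2.2
  have f7 : ∀ n, ∀ x ∈ M n, Two (M n) x := fun n => g7 _ (hE n).1 (hE n).2.1 (hE n).2.2
  have f8 : ∀ n, ∀ x ∈ (E n).1, Two (M n) x := fun n => g8 _ (hE n).1 (hE n).2.1 (hE n).2.2
  have f9 : ∀ n, F n \ (E n).1 ⊆ closure (M n) := fun n =>
    g9 _ (hE n).1 (hE n).2.1 (hE n).2.2
  have f10 : ∀ n, ∀ x ∈ F n \ (E n).1, x ∉ N' := fun n => g10 _ (hE n).1 (hE n).2.1 (hE n).2.2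
  have f11 : ∀ n, ∀ r : ℝ, (∃ x ∈ M n, r < x) ∧ ∃ x ∈ M n, x < r :=
    fun n => g11 _ (hE n).1 (hE n).2.1 (hE n).2.2
  have f12 : ∀ n, (∀ x ∈ F n \ (E n).1, i + 2 ≤ l x → Two (F n \ (E n).1) x) ∧
      ∀ V' : Set ℝ, IsClosed V' → V' ⊆ (E n).1 → Adm l (i + 1) j N' (F n) V' := fun n =>
    g12 _ (hE n).1 (hE n).2.1 (hE n).2.2 j rfl
  -- the previous sets
  obtain ⟨G, hG0, hGs⟩ : ∃ G : ℕ → Set ℝ, G 0 = V ∧ ∀ n, G (n + 1) = F n :=
    ⟨fun n => Nat.casesOn n V F, rfl, fun n => rfl⟩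
  have hGE : ∀ n, G n ⊆ (E n).1 := by
    intro n
    cases n with
    | zero => rw [hG0]; exact (hE 0).2.1
    | succ n => rw [hGs, hEs]; exact subset_union_left
  have hGc : ∀ n, IsClosed (G n) := by
    intro n
    cases n with
    | zero => rw [hG0]; exact hA.closedV
    | succ n => rw [hGs]; exact f1 n
  have hGm : Monotone G := monotone_nat_of_le_succ fun n => by
    rw [hGs]; exact (hGE n).trans (f2 n)
  have hFG : ∀ m n, m < n → F m ⊆ G n := by
    intro m n h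
    rw [← hGs]
    exact hGm h
  have hVG : ∀ n, V ⊆ G n := by
    intro n
    rw [← hG0]
    exact hGm (Nat.zero_le n)
  have hGF : ∀ n, G n ⊆ F n := fun n => (hGE n).trans (f2 n)
  have hadm : ∀ n, Adm l (i + 1) j N' (F n) (G n) := fun n => (f12 n).2 _ (hGc n) (hGE n)
  have hl' : ∀ x, l x ≤ i + 1 + j + 1 := fun x => by have := hl x; omega
  choose DD NN hPr using fun n => hH l N' (F n) (G n) hFS hl' hN' (hadm n)
  have hDb : ∀ k, DD k bot = G k := fun k => (hPr k).bot_eq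
  have hDU : ∀ k b, DD k b ⊆ G k ∪ ({x | i + 1 + 1 ≤ l x} ∩ F k) := by
    intro k b
    rw [← (hPr k).union]
    exact subset_iUnion (DD k) b
  have hDF : ∀ k b, DD k b ⊆ F k := by
    intro k b x hx
    rcases hDU k b hx with h | h
    · exact hGF k h
    · exact h.2
  have hGD : ∀ k b, G k ⊆ DD k b := by
    intro k b
    rw [← hDb k]
    exact (hPr k).mono _ _ (hbot b)
  have hDG : ∀ k b m, k < m → DD k b ⊆ G m := fun k b m h => (hDF k b).trans (hFG k m h)
  set D : ℕ ×ₗ κ → Set ℝ := fun a => DD (ofLex a).1 (ofLex a).2 with hD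
  set N : Set ℝ := (N' ∩ ({x | i + 1 ≤ l x} ∩ (U \ V))) ∪ (⋃ m, M m) ∪ ⋃ m, NN m with hN
  -- points outside `V`
  have hout : ∀ k x, x ∈ F k → x ∉ G k → i + 1 ≤ l x ∧ x ∈ U ∧ x ∉ V := by
    intro k x h1 h2
    have hV : x ∉ V := fun h => h2 (hVG k h)
    rcases f3 k h1 with h | h
    · exact absurd h hV
    · exact ⟨h.1, h.2, hV⟩
  have hMG : ∀ m x, x ∈ M m → x ∈ F m ∧ x ∉ G m := fun m x hx =>
    ⟨(f5 m hx).1, fun h => (f5 m hx).2 (hGE m h)⟩
  -- the layers
  have lay1 : ∀ (a : ℕ ×ₗ κ), (ofLex a).2 ≠ bot →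
      Lay D a = Lay (DD (ofLex a).1) (ofLex a).2 := by
    intro a ha
    ext x
    constructor
    · rintro ⟨h1, h2⟩
      refine ⟨h1, fun c hc => ?_⟩
      have := h2 (toLex ((ofLex a).1, c)) (by
        rw [Prod.Lex.lt_iff]
        right
        exact ⟨rfl, hc⟩)
      exact this
    · rintro ⟨h1, h2⟩
      refine ⟨h1, fun c hc hx => ?_⟩
      rw [Prod.Lex.lt_iff] at hc
      rcases hc with hc | ⟨hc1, hc2⟩
      · refine h2 bot (hbotlt _ ha) ?_
        rw [hDb]
        exact hDG _ _ _ hc hx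
      · refine h2 _ hc2 ?_
        rw [← hc1]
        exact hx
  have lay2 : ∀ (a : ℕ ×ₗ κ) (k : ℕ), (ofLex a).2 = bot → (ofLex a).1 = k + 1 → ∀ x,
      x ∈ Lay D a ↔ x ∈ F k ∧ x ∉ G k ∧ ¬ (i + 1 + 1 ≤ l x) := by
    intro a k ha hk x
    constructor
    · rintro ⟨h1, h2⟩
      have h1' : x ∈ F k := by
        have h1a : x ∈ DD (ofLex a).1 (ofLex a).2 := h1
        rw [ha, hDb, hk, hGs] at h1a
        exact h1a
      have h3 : ∀ c, x ∉ DD k c := by
        intro c
        refine h2 (toLex (k, c)) ?_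
        rw [Prod.Lex.lt_iff]
        left
        rw [hk]
        exact Nat.lt_succ_self k
      refine ⟨h1', fun h => h3 bot (by rw [hDb]; exact h), fun h => ?_⟩
      have h4 : x ∈ ⋃ c, DD k c := by
        rw [(hPr k).union]
        exact Or.inr ⟨h, h1'⟩
      obtain ⟨c, hc⟩ := mem_iUnion.1 h4
      exact h3 c hc
    · rintro ⟨h1, h2, h3⟩
      refine ⟨?_, fun c hc hx => ?_⟩
      · show x ∈ DD (ofLex a).1 (ofLex a).2
        rw [ha, hDb, hk, hGs]
        exact h1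
      · rw [Prod.Lex.lt_iff] at hc
        rcases hc with hc | ⟨hc1, hc2⟩
        · rw [hk] at hc
          rcases lt_or_eq_of_le (Nat.lt_succ_iff.1 hc) with h | h
          · exact h2 (hDG _ _ _ h hx)
          · have hx' : x ∈ DD (ofLex c).1 (ofLex c).2 := hx
            rw [h] at hx'
            rcases hDU k _ hx' with h4 | h4
            · exact h2 h4
            · exact h3 h4.1
        · rw [ha] at hc2
          exact absurd hc2 (not_lt.2 (hbot _))
  have hpos : ∀ a : ℕ ×ₗ κ, a ≠ toLex (0, bot) → (ofLex a).2 = bot →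
      ∃ k, (ofLex a).1 = k + 1 := by
    intro a ha h
    rcases Nat.eq_zero_or_pos (ofLex a).1 with h0 | h0
    · refine absurd ?_ ha
      have : ofLex a = (0, bot) := Prod.ext h0 h
      rw [← this]
      rfl
    · exact ⟨(ofLex a).1 - 1, by omega⟩
  have hML : ∀ (a : ℕ ×ₗ κ) (k : ℕ), (ofLex a).2 = bot → (ofLex a).1 = k + 1 →
      M k ⊆ N ∩ Lay D a := by
    intro a k ha hk x hx
    refine ⟨Or.inl (Or.inr (mem_iUnion.2 ⟨k, hx⟩)), (lay2 a k ha hk x).2 ⟨(hMG k x hx).1,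
      (hMG k x hx).2, ?_⟩⟩
    rw [f6 k x hx]
    omega
  have hNL : ∀ (a : ℕ ×ₗ κ), (ofLex a).2 ≠ bot →
      NN (ofLex a).1 ∩ Lay (DD (ofLex a).1) (ofLex a).2 ⊆ N ∩ Lay D a := by
    intro a ha x hx
    rw [lay1 a ha]
    exact ⟨Or.inr (mem_iUnion.2 ⟨_, hx.1⟩), hx.2⟩
  refine ⟨D, N, ?_⟩
  refine ⟨?_, ?_, ?_, ?_, ?_, ?_, ?_, ?_, ?_, ?_, ?_, ?_, ?_, ?_⟩
  · -- bot_eq
    show DD 0 bot = V
    rw [hDb, hG0]
  · -- closed
    intro a
    exact (hPr _).closed _
  · -- mono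
    intro a b hab
    rw [Prod.Lex.le_iff] at hab
    rcases hab with h | ⟨h1, h2⟩
    · exact (hDG _ _ _ h).trans (hGD _ _)
    · show DD (ofLex a).1 (ofLex a).2 ⊆ DD (ofLex b).1 (ofLex b).2
      rw [h1]
      exact (hPr _).mono _ _ h2
  · -- closedlt
    intro a ha hR
    have hR' : (ofLex a).2 ≠ bot ∧ R (ofLex a).2 := by
      rcases hR with h | h
      · obtain ⟨k, hk⟩ := hpos a ha h.1
        have := h.2
        omega
      · exact h
    have heq : {x | ∃ b, b < a ∧ x ∈ D b} =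
        {x | ∃ b, b < (ofLex a).2 ∧ x ∈ DD (ofLex a).1 b} := by
      ext x
      constructor
      · rintro ⟨c, hc, hx⟩
        rw [Prod.Lex.lt_iff] at hc
        rcases hc with hc | ⟨hc1, hc2⟩
        · refine ⟨bot, hbotlt _ hR'.1, ?_⟩
          rw [hDb]
          exact hDG _ _ _ hc hx
        · refine ⟨_, hc2, ?_⟩
          rw [← hc1]
          exact hx
      · rintro ⟨c, hc, hx⟩
        refine ⟨toLex ((ofLex a).1, c), ?_, hx⟩
        rw [Prod.Lex.lt_iff]
        right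
        exact ⟨rfl, hc⟩
    rw [heq]
    exact (hPr _).closedlt _ hR'.1 hR'.2
  · -- lims
    intro a ha hR
    by_cases hb : (ofLex a).2 = bot
    · obtain ⟨k, hk⟩ := hpos a ha hb
      intro x hx
      have hx' : x ∈ DD (ofLex a).1 (ofLex a).2 := hx
      rw [hb, hDb, hk, hGs] at hx'
      have hlt : ∀ c, toLex (k, c) < a := by
        intro c
        rw [Prod.Lex.lt_iff]
        left
        rw [hk]
        exact Nat.lt_succ_self k
      by_cases hxG : x ∈ G k
      · apply subset_closure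
        refine ⟨toLex (k, bot), hlt bot, ?_⟩
        show x ∈ DD k bot
        rw [hDb]
        exact hxG
      · rw [Metric.mem_closure_iff]
        intro ε hε
        obtain ⟨Q, hQ1, hQ2, -⟩ := (hadm k).piece (x - ε) (x + ε)
          ⟨x, ⟨hx', hxG⟩, by constructor <;> linarith⟩
        obtain ⟨-, ⟨z, hz⟩, hQ3, -⟩ := core_of_pc hQ2
        have hzQ := hQ1 hz
        have hzU : z ∈ ⋃ c, DD k c := by
          rw [(hPr k).union]
          exact Or.inr ⟨hQ3 z hz, hzQ.1.1⟩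
        obtain ⟨c, hc⟩ := mem_iUnion.1 hzU
        refine ⟨z, ⟨toLex (k, c), hlt c, hc⟩, ?_⟩
        rw [Real.dist_eq, abs_lt]
        have := hzQ.2.1
        have := hzQ.2.2
        constructor <;> linarith
    · have hR' : ¬ R (ofLex a).2 := fun h => hR (Or.inr ⟨hb, h⟩)
      refine ((hPr (ofLex a).1).lims _ hb hR').trans (closure_mono ?_)
      rintro x ⟨c, hc, hx⟩
      refine ⟨toLex ((ofLex a).1, c), ?_, hx⟩
      rw [Prod.Lex.lt_iff]
      right
      exact ⟨rfl, hc⟩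
  · -- union
    apply Subset.antisymm
    · apply iUnion_subset
      intro a
      exact (hDF _ _).trans (f3 _)
    · rintro x (hx | ⟨hx, hxU⟩)
      · refine mem_iUnion.2 ⟨toLex (0, bot), ?_⟩
        show x ∈ DD 0 bot
        rw [hDb, hG0]
        exact hx
      · have hx' : x ∈ ⋃ m, H m := by rw [hHU]; exact hx
        obtain ⟨m, hm⟩ := mem_iUnion.1 hx'
        refine mem_iUnion.2 ⟨toLex (m + 1, bot), ?_⟩
        show x ∈ DD (m + 1) bot
        rw [hDb, hGs]
        exact f2 m (hHE m ⟨hm, hxU⟩)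
  · -- lev
    intro a ha x hx
    by_cases hb : (ofLex a).2 = bot
    · obtain ⟨k, hk⟩ := hpos a ha hb
      obtain ⟨h1, h2, h3⟩ := (lay2 a k hb hk x).1 hx
      have h4 := (hout k x h1 h2).1
      simp only [hb, if_true]
      omega
    · rw [lay1 a hb] at hx
      simp only [hb, if_false]
      exact (hPr _).lev _ hb x hx
  · -- countN
    exact ((hN'.mono inter_subset_left).union (countable_iUnion f4)).union
      (countable_iUnion fun m => (hPr m).countN)
  · -- subN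
    rintro x ((hx | hx) | hx)
    · exact hx.2
    · obtain ⟨m, hm⟩ := mem_iUnion.1 hx
      obtain ⟨h1, h2⟩ := hMG m x hm
      obtain ⟨h3, h4, h5⟩ := hout m x h1 h2
      exact ⟨h3, h4, h5⟩
    · obtain ⟨m, hm⟩ := mem_iUnion.1 hx
      have h := (hPr m).subN hm
      obtain ⟨h3, h4, h5⟩ := hout m x h.2.1 h.2.2
      exact ⟨h3, h4, h5⟩
  · -- supN
    intro x hx
    exact Or.inl (Or.inl hx)
  · -- lim
    intro a ha hR x hx
    have hR' : (ofLex a).2 ≠ bot ∧ R (ofLex a).2 := by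
      rcases hR with h | h
      · obtain ⟨k, hk⟩ := hpos a ha h.1
        have := h.2
        omega
      · exact h
    exact lim_mono (hNL a hR'.1) ((hPr _).lim _ hR'.1 hR'.2 x hx)
  · -- two
    intro a b hba x hx
    rw [Prod.Lex.lt_iff] at hba
    by_cases hb : (ofLex a).2 = bot
    · have hlt : (ofLex b).1 < (ofLex a).1 := by
        rcases hba with h | ⟨-, h⟩
        · exact h
        · rw [hb] at h
          exact absurd h (not_lt.2 (hbot _))
      obtain ⟨k, hk⟩ : ∃ k, (ofLex a).1 = k + 1 := ⟨(ofLex a).1 - 1, by omega⟩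
      refine two_mono (hML a k hb hk) ?_
      by_cases hxE : x ∈ (E k).1
      · exact f8 k x hxE
      · rw [hk] at hlt
        rcases lt_or_eq_of_le (Nat.lt_succ_iff.1 hlt) with h | h
        · exact absurd (hGE k (hDG _ _ _ h hx)) hxE
        · have hx' : x ∈ DD (ofLex b).1 (ofLex b).2 := hx
          rw [h] at hx'
          rcases hDU k _ hx' with h4 | h4
          · exact absurd (hGE k h4) hxE
          · exact two_cl (f9 k) ((f12 k).1 x ⟨h4.2, hxE⟩ h4.1)
    · refine two_mono (hNL a hb) ?_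
      rcases hba with h | ⟨h1, h2⟩
      · refine (hPr _).two _ bot (hbotlt _ hb) x ?_
        rw [hDb]
        exact hDG _ _ _ h hx
      · refine (hPr _).two _ _ h2 x ?_
        rw [← h1]
        exact hx
  · -- twoN
    intro a ha x hx
    by_cases hb : (ofLex a).2 = bot
    · obtain ⟨k, hk⟩ := hpos a ha hb
      obtain ⟨h1, h2, h3⟩ := (lay2 a k hb hk x).1 hx.2
      have key : Two (M k) x := by
        rcases hx.1 with (h | h) | h
        · by_cases hxE : x ∈ (E k).1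
          · exact f8 k x hxE
          · exact absurd h.1 (f10 k x ⟨h1, hxE⟩)
        · obtain ⟨m, hm⟩ := mem_iUnion.1 h
          rcases lt_trichotomy m k with h' | h' | h'
          · exact absurd (hFG m k h' (f5 m hm).1) h2
          · rw [h'] at hm
            exact f7 k x hm
          · exact absurd (hGE m (hFG k m h' h1)) (f5 m hm).2
        · obtain ⟨m, hm⟩ := mem_iUnion.1 h
          exact absurd ((hPr m).subN hm).1 h3
      have hDa : D a = F k := by
        show DD (ofLex a).1 (ofLex a).2 = F k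
        rw [hb, hDb, hk, hGs]
      rw [hDa]
      exact two_mono (fun y hy => (f5 k hy).1) key
    · have hxL : x ∈ Lay (DD (ofLex a).1) (ofLex a).2 := by
        rw [← lay1 a hb]
        exact hx.2
      have hxG : x ∉ G (ofLex a).1 := by
        have := hxL.2 bot (hbotlt _ hb)
        rwa [hDb] at this
      have hxS : x ∈ {x | i + 1 + 1 ≤ l x} ∩ F (ofLex a).1 := by
        rcases hDU _ _ hxL.1 with h | h
        · exact absurd h hxG
        · exact h
      have key : x ∈ NN (ofLex a).1 := by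
        rcases hx.1 with (h | h) | h
        · exact (hPr _).supN ⟨h.1, hxS.1, hxS.2, hxG⟩
        · obtain ⟨m, hm⟩ := mem_iUnion.1 h
          have h1 := f6 m x hm
          have h2 : i + 1 + 1 ≤ l x := hxS.1
          omega
        · obtain ⟨m, hm⟩ := mem_iUnion.1 h
          have h1 := (hPr m).subN hm
          rcases lt_trichotomy m (ofLex a).1 with h' | h' | h'
          · exact absurd (hFG m _ h' h1.2.1) hxG
          · rw [h'] at hm
            exact hm
          · exact absurd (hFG _ m h' hxS.2) h1.2.2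
      exact (hPr _).twoN _ hb x ⟨key, hxL⟩
  · -- unb
    intro a ha r
    by_cases hb : (ofLex a).2 = bot
    · obtain ⟨k, hk⟩ := hpos a ha hb
      obtain ⟨⟨x, hx, h1⟩, y, hy, h2⟩ := f11 k r
      exact ⟨⟨x, hML a k hb hk hx, h1⟩, y, hML a k hb hk hy, h2⟩
    · obtain ⟨⟨x, hx, h1⟩, y, hy, h2⟩ := (hPr (ofLex a).1).unb _ hb r
      exact ⟨⟨x, hNL a hb hx, h1⟩, y, hNL a hb hy, h2⟩

end Pool.Agent.Q203.MB
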